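import Mathlib
import Pool.Agent.H8EM.Nr
import Pool.Agent.Y1.CT.Main

/-!
# Finiteness of the unramified cohomology `H^3_nr(-, ℚ/ℤ(2))` for products of abelian varieties of almost
all slope types of all CM fields with arbitrary varieties, over finite fields

Let `K i` (`i` in a finite set) be CM fields of degree `2 g i`. Nothing is assumed about their Galois
groups. They are pairwise independent: for `i ≠ k` and all complex embeddings `φ` of `K i` and `ψ` of
`K k` some automorphism of `ℂ` is the identity on `φ (K i)` and the complex conjugation on `ψ (K k)`
(this is no condition if there is only one field). We fix an isomorphism `ν` of the algebraic closure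
of `ℚ_p` with `ℂ`; it defines a `p`-adic valuation of `ℂ`, with the value one at `p`. Let `M i` be a
function with nonzero integral values, all of which divide `n i`, on the complex embeddings of
`K i`, invariant under complex conjugation. A CM type `Φ i` of `K i` (a choice of one element out of
each complex conjugate pair of embeddings; there are `2 ^ (g i)` types), `M i` and a real number
`κ ≠ 0` prescribe the slopes `(a + κ M) / 2` (at the embeddings in `Φ i`) and `(a - κ M) / 2` (outside
of `Φ i`) of a Weil number for `p ^ a` in `K i` (`HasType`). The case `M = 1`, `κ = a` is the case of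
ordinary abelian varieties.

There are `2 ^ (∑ i, g i)` families of CM types `Φ i` of the fields `K i`. A family is exceptional
(`exceptionalFamilies ν K M`) if the following statement (`Holds`) is false for it. Let `π i` be Weil
numbers for `q = p ^ a` that generate the fields `K i` and have the slope types `Φ i`, `M i`, and let
`f i` be monic polynomials whose complex roots are conjugates of `π i` (`IsPolyOf`), for instance the
characteristic polynomials of Frobenius of the abelian varieties in the isogeny classes of the `π i`
over the field with `q` elements. Let `A` be an abelian variety over the field with `Q = q ^ s`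
elements which is isogenous to a product of powers of abelian varieties coming from the field with
`q` elements, with characteristic polynomials `f i`. Let `Y` be **any** smooth projective variety over
the field with `Q` elements such that the Frobenius endomorphism of `Y` satisfies on the group
`H^3_nr(A × Y, ℚ/ℤ(2))` a nonzero polynomial with integral coefficients whose roots are unrelated to
the fields `K i` (`UnramifiedRoots T (Unrelated K)`). This is so if the Chow motive of `Y` is
finite-dimensional in the sense of Kimura (for instance, if `Y` is dominated by a product of curves)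
and the Frobenius eigenvalues on the cohomology of `Y` are unrelated to the fields `K i`: then a
multiple of a power of the characteristic polynomial of Frobenius is zero on the motive.

A complex number `ρ ≠ 0` is unrelated to the fields `K i` (`Unrelated`) if a function `n` on the
complex embeddings of `K i` with `n (conj φ) = - n φ` which is invariant under all automorphisms of
`ℂ` that fix a power of `ρ` is zero. This is so if for each embedding `ψ` of `K i` some automorphism
which fixes a power of `ρ` is the complex conjugation on `ψ (K i)`: for instance, if a power of `ρ`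
lies in a field linearly disjoint from the normal closures of the `K i`, or in a totally real field.

Then **the group `H^3_nr(A × Y, ℚ/ℤ(2))` is finite if and only if the group `H^3_nr(Y, ℚ/ℤ(2))` is finite**
(`UnramifiedEquiv`): question 1 for `A × Y` is equivalent to question 1 for `Y`. In particular
`H^3_nr(A × Y, ℚ/ℤ(2))` is finite if `Y` is a curve or a surface as above, since then
`H^3_nr(Y, ℚ/ℤ(2)) = 0` (Colliot-Thélène, Sansuc, Soulé). No Tate or Beilinson conjecture is assumed for
`Y` or for `A × Y`.

The framework: the Chow ring and the ring of correspondences of `A`, with rational coefficients, and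
the cohomology of `A` (with coefficients in any field of characteristic zero which contains the
Frobenius eigenvalues), with the formal properties and the theorems of Tate on divisors and of Kimura
on the nilpotence of homologically trivial correspondences (`AbelianData`, `IsAbelian`); the Chow ring
and the correspondences with integral coefficients (`IntegralData`, `IsIntegralData`). For `X = Y` and
`X = A × Y` let `G^i(X, j)` be the cokernel of the map from the motivic to the étale motivic cohomology
group `H^i(X, ℤ(j))`; by Lichtenbaum and Kahn there is an exact sequence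
`0 → CH^2(X) → H^4(X_et, ℤ(2)) → H^3_nr(X, ℚ/ℤ(2)) → 0`, so that `G^4(X, 2) = H^3_nr(X, ℚ/ℤ(2))`. These
groups have products with cycles on `A`, the push-forward from `A × Y` to `Y`, the operation of the
correspondences from `A` to `A` and of the Frobenius endomorphism of `Y` (`IntTheory`, `IsIntGraded`,
`IsIntAction`); the Frobenius endomorphism of `A × Y` acts as `Q ^ j` in weight `j ≥ 0`. The groups
`G^(2 j)(Y, j)` are zero for `j ≤ 1`, and `H^3_nr(X, ℚ/ℤ(2))` is finite if it is annihilated by an
integer `n ≠ 0` (`IsUnramifiedTheory`). The last property is proved as follows: `H^3(X, ℚ/ℤ(2))` is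
finite (Colliot-Thélène, Sansuc, Soulé), and the kernel `K` of the map from the divisible group
`D = CH^2(X) ⊗ ℚ/ℤ` to `H^4(X, ℚ/ℤ(2))` is `H^3_nr(X, ℚ/ℤ(2))` modulo the image of `H^3(X, ℚ/ℤ(2))`; if
`n K = 0` then `D = n D` is a quotient of `D / K`, so that the `ℓ`-primary parts of `D` are of cofinite
type and `K` is finite.

The proof. The method is the one of helper68 for Weil-étale cohomology (MP_cb388a_ag): there are products
`D t` of `c t` divisor classes on `A` with a dual system `E t` for the intersection pairing; let `π` be
the projector given by them, and `N` a number such that the `N D t` and `N E t` are integral. For a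
suitable polynomial `P` with integral coefficients the integral correspondence
`Θ = (N ^ 2 - N ^ 2 π) P (F)` is homologically trivial, so that a multiple of a power of `Θ` is zero; and
`a (F) P (F)` is multiplication by an integer `N' ≠ 0` on `H^3_nr(A × Y, ℚ/ℤ(2))`. Since `Θ` vanishes on
the image of `π`, this shows that `B m = b ∑ N D t × (N E t)_* m` for all `m` in
`H^3_nr(A × Y, ℚ/ℤ(2))`, with integers `B ≠ 0` and `b`. The elements `(N E t)_* m` are in
`G^(4 - 2 c t)(Y, 2 - c t)`, which is zero for `c t > 0` and `H^3_nr(Y, ℚ/ℤ(2))` for `c t = 0`. So
`H^3_nr(A × Y, ℚ/ℤ(2))` has a finite exponent if `H^3_nr(Y, ℚ/ℤ(2))` is finite.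

The theorem bounds the number of the exceptional families: it is at most
`2 ^ (∑ i, g i) * ∑ i, C * (n i) ^ 2 * rate (K i) (g i) (q i)`, with an absolute constant `C`. Here
`q i` is any prime factor of `g i` (or `q i = 1`), and `rate K g q` is `(1 + log (2 g)) ^ 16` times
the smaller of the numbers `W (K) / √g` and `√g / q`; the second part of the theorem
(`WeightEstimate`) is `W (K) ≤ N ^ 2 * D ^ (1 / 4)`, where `N` is the number of the CM subfields of `K`
(with `K`) and `D` is the largest degree of a CM subfield of `K` that is normal over `ℚ` with a
nonabelian Galois group (`D = 1` if there are none). The number `W (K)` is `subfieldWeight K`.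
-/

set_option autoImplicit false

namespace Pool.Agent.Results.MP_859dd5_ag.AllCMTypesTimes

open NumberField Module Pool.Agent.H204R3.CM Pool.Agent.H977R3.CM Pool.Agent.TH170
  Pool.Agent.Y1.KN Pool.Agent.Y1.CT Pool.Agent.V1168.BB Pool.Agent.H8EM

/-- The group `H^3_nr(A × Y, ℚ/ℤ(2))` is finite if and only if `H^3_nr(Y, ℚ/ℤ(2))` is finite, for all
abelian varieties `A` whose Frobenius eigenvalues are powers of conjugates of Weil numbers with the
slope types `Φ i`, `M i`, and all `Y` unrelated to the fields `K i`. -/
def Holds {p : ℕ} [Fact p.Prime] (ν : PadicAlgCl p ≃+* ℂ) {I : Type} (K : I → Type)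
    [∀ i, Field (K i)] [∀ i, NumberField (K i)] [∀ i, IsCMField (K i)]
    (M : ∀ i, (K i →+* ℂ) → ℤ) (Φ : ∀ i, Set (K i →+* ℂ)) : Prop :=
  ForAllTypes ν K M (UnramifiedTimes (Unrelated K)) Φ

/-- The exceptional families of CM types. -/
def exceptionalFamilies {p : ℕ} [Fact p.Prime] (ν : PadicAlgCl p ≃+* ℂ) {I : Type} (K : I → Type)
    [∀ i, Field (K i)] [∀ i, NumberField (K i)] [∀ i, IsCMField (K i)]
    (M : ∀ i, (K i →+* ℂ) → ℤ) : Set (∀ i, Set (K i →+* ℂ)) :=
  {Φ | (∀ i, IsCMType (Φ i)) ∧ ¬ Holds ν K M Φ}

/-- **The group `H^3_nr(A × Y, ℚ/ℤ(2))` is finite if and only if `H^3_nr(Y, ℚ/ℤ(2))` is finite, for the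
abelian varieties `A` of almost all slope types of all CM fields and all unrelated varieties `Y`.** -/
theorem result :
    (∃ C : ℝ, 0 ≤ C ∧ ∀ (p : ℕ) [Fact p.Prime] (ν : PadicAlgCl p ≃+* ℂ) (I : Type) [Fintype I]
      (K : I → Type) [∀ i, Field (K i)] [∀ i, NumberField (K i)] [∀ i, IsCMField (K i)]
      (M : ∀ i, (K i →+* ℂ) → ℤ) (n g q : I → ℕ), PairwiseIndep K →
      (∀ i φ, M i (ComplexEmbedding.conjugate φ) = M i φ) → (∀ i, n i ≠ 0) →
      (∀ i φ, M i φ ∣ (n i : ℤ)) → (∀ i, finrank ℚ (K i) = 2 * g i) →
      (∀ i, q i ∣ g i ∧ (q i = 1 ∨ (q i).Prime)) →
      ((exceptionalFamilies ν K M).ncard : ℝ) ≤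
        2 ^ (∑ i, g i) * ∑ i, C * (n i : ℝ) ^ 2 * rate (K i) (g i) (q i)) ∧
    WeightEstimate := by
  obtain ⟨C, hC0, hC⟩ := ncard_of_unrel
  refine ⟨⟨C, hC0, ?_⟩, weight_estimate_holds⟩
  intro p _ ν I _ K _ _ _ M n g q hind hM hn hMn hg hq
  exact hC p ν I K M n g q hind hM hn hMn hg hq _ fun Q f hQ hR => unramified_times hQ hR

end Pool.Agent.Results.MP_859dd5_ag.AllCMTypesTimes
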