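import Pool.Agent.V1157.UR.Main

/-!
# Unramified cohomology of bounded corank has no divisible part

Let `F` be a finite field and `ℓ` a prime different from its characteristic; fix the dimension `n`.
For a smooth projective variety `X` over `F` of dimension `n` let `W(X)` be the ℓ-adic Tate module,
tensored with `ℚ`, of the unramified cohomology group `H^3_nr(X, ℚ_ℓ/ℤ_ℓ(2))`. It is zero if and only
if this group has no non-zero divisible subgroup. The following are equivalent:

1. `W(X) = 0` for all `X` of dimension `n`;
2. the dimensions of the spaces `W(X)`, that is, the coranks of the divisible subgroups, are bounded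
   for the varieties `X` of dimension `n`;
3. correspondences of degree zero between `X` and itself commute on `W(X)`;
4. they satisfy some non-zero multilinear polynomial identity on `W(X)`.

Proof of 2 ⇒ 1: let `t ∈ W(S)` and let `V` be a complete intersection of dimension `n` in the power
`S^(D+1)`, with projections `p i : V ⟶ S`. By assumption `∑ c_i (p i)^* t = 0` with some `c_i ≠ 0`.
Now `(p i)_* (p j)^* t` is zero for `i ≠ j`, because the correspondence `(p j, p i)_* [V]` is a
combination of the classes `a^m × a^(n-m)`, which act as zero on unramified cohomology, and it is a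
non-zero multiple of `t` for `i = j`. For 4 ⇒ 1 one uses the correspondences `(p (i+1))^* (p i)_*`.
-/

open CategoryTheory AlgebraicGeometry

universe u v w z

namespace Pool.Agent.Results.MP_859dd5_ag.BoundedCoranks

open Pool.Agent.H914 Pool.Agent.H914.VarClass Pool.Agent.H914.VarClass.Obj Pool.Agent.W492.BB
  Pool.Agent.TH133 Pool.Agent.V1157.UR Pool.Agent.V1157.BD

theorem result {k : Type u} [Field k] {𝒱 : VarClass k} {C : TheoryData.{u, v, 0} 𝒱 ℚ}
    [IsChowProj C] {K : Type w} [Field K] [CharZero K] (P : CorrFunctor.{u, v, w, z} C K) (n : ℕ)
    (hP : IsBirational P n) (hV : ∀ (S : 𝒱.Obj) (N : ℕ), S.dim = n → HasPower C n N S) :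
    List.TFAE [Vanishes P n, ∃ D, DimAtMost P n D, Commuting P n,
      ∃ (d : ℕ) (c : Equiv.Perm (Fin d) → K), c ≠ 0 ∧ Identity P n d c] :=
  main hP hV

end Pool.Agent.Results.MP_859dd5_ag.BoundedCoranks
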