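import Mathlib
import Pool.Agent.H8EM.Nr
import Pool.Agent.V1168.EV.Rel

/-!
# Finiteness of the unramified cohomology `H^3_nr(-, ℚ/ℤ(2))` for products of arbitrary varieties with
abelian varieties outside of finitely many lines of slope vectors, over finite fields

Let `K i` (`i` in a finite set) be CM fields with pair flips (`PairFlips`): for any two complex
embeddings `φ` of `K i` and `ψ` of `K k` (with `i = k` or not) which are neither equal nor complex
conjugate, some automorphism of `ℂ` is the identity on `φ (K i)` and the complex conjugation on
`ψ (K k)`. One CM field `K` of degree `2 g` has this property if the Galois group of its normal closure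
is the largest possible one (of order `2 ^ g g!`), or contains, for each pair of complex conjugate
embeddings, an element which exchanges them and fixes all other embeddings, or contains all the
automorphisms that exchange two pairs in this sense (`g > 2`); several such fields with linearly
disjoint normal closures have it together. We fix an isomorphism `ν` of the algebraic closure of `ℚ_p`
with `ℂ`; it defines a `p`-adic valuation `v` of `ℂ` with `v p = 1`. The slope vector of a Weil number
`π` for `p ^ a` in `K i` is the function `2 v (φ π) - a` on the complex embeddings `φ` of `K i`
(`slopeVector`); it is odd: its values at conjugate embeddings are opposite.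

Let `π i` be Weil numbers for `q = p ^ a` in `K i` with nonzero slope vectors, and let `f i` be monic
polynomials whose complex roots are conjugates of `π i` (`IsPolyOf`), for instance the characteristic
polynomials of Frobenius of the abelian varieties in the isogeny classes of the `π i` over the field
with `q` elements. Let `A` be an abelian variety over the field with `Q = q ^ s` elements which is
isogenous to a product of powers of abelian varieties coming from the field with `q` elements, with
characteristic polynomials `f i` (`IsAbelian`).

A number `ρ` comes from the finite set `Ω` of complex numbers (`From p Ω`) if it is not zero and a power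
of it is the product of a power of a conjugate of an element of `Ω`, or of `1`, and of a power of `p`.

Let `Y` be **any** smooth projective variety over the field with `Q` elements such that
the Frobenius endomorphism of `Y` satisfies on the group `H^3_nr(A × Y, ℚ/ℤ(2))` a nonzero polynomial
with integral coefficients whose roots come from `Ω` (`UnramifiedRoots T (From p Ω)`). This is so if the
Chow motive of `Y` is finite-dimensional in the sense of Kimura (for instance, if `Y` is dominated by a
product of curves) and the Frobenius eigenvalues on the cohomology of `Y` come from `Ω`.

**The theorem: there is a set `E` of at most `|Ω|` lines, each of them in the space of the functions on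
the complex embeddings of one of the fields `K i`, such that for all `a`, all `π i` whose slope vectors
are not on the lines in `E`, all `f i`, `s`, `A` and all `Y` as above the statement below is true.**
The lines depend only on `ν`, the fields and `Ω`, and not on the Weil numbers, on the powers of the
abelian varieties, on the finite field or on `Y`. So for one field `K` and a given `Y` all the Weil
numbers in `K` are allowed, except those whose slope vector is a multiple of one of at most `|Ω|`
vectors in the `g`-dimensional space of the odd functions; for instance, at most `2 |Ω|` of the `2 ^ g`
slope types of the ordinary abelian varieties with complex multiplication by `K` are exceptional for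
`Y`. (Exceptions to the Künneth formula behind the theorem are necessary: if `Y = A` then there are
divisor classes in `H^1(A) ⊗ H^1(Y)`.)

The results of the starting files of this kind are about varieties whose Frobenius eigenvalues are
unrelated to the fields `K i` or have small slopes. **Here they are arbitrary**: they may generate the
same fields `K i`, or fields containing them. The result `EveryVarietyTimes` of helper8 for this problem is about **one**
family of Weil numbers `π i` (possibly in infinitely many fields), and bounds the total degree of the
fields of its exceptional members; for one field it only says something if its degree is bigger than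
`|Ω|`. Here the fields are given, **all the Weil numbers in them are considered at the same time**, the
exceptions are on at most `|Ω|` lines, and `Ω` is any finite set (not stable under the automorphisms: one
of each set of conjugates is sufficient; and its elements need not be in CM fields).

Then **the group `H^3_nr(A × Y, ℚ/ℤ(2))` is finite if and only if the group `H^3_nr(Y, ℚ/ℤ(2))` is finite**
(`UnramifiedEquiv`): question 1 for `A × Y` is equivalent to question 1 for `Y`. In particular
`H^3_nr(A × Y, ℚ/ℤ(2))` is finite if `Y` is a curve or a surface as above, since then
`H^3_nr(Y, ℚ/ℤ(2)) = 0` (Colliot-Thélène, Sansuc, Soulé). No Tate or Beilinson conjecture is assumed for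
`Y` or for `A × Y`.

The framework: the Chow ring and the ring of correspondences of `A`, with rational coefficients, and
the cohomology of `A` (with coefficients in any field of characteristic zero which contains the
Frobenius eigenvalues), with the formal properties and the theorems of Tate on divisors and of Kimura
on the nilpotence of homologically trivial correspondences (`AbelianData`, `IsAbelian`); the Chow ring
and the correspondences with integral coefficients (`IntegralData`, `IsIntegralData`). For `X = Y` and
`X = A × Y` let `G^i(X, j)` be the cokernel of the map from the motivic to the étale motivic cohomology
group `H^i(X, ℤ(j))`; by Lichtenbaum and Kahn there is an exact sequence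
`0 → CH^2(X) → H^4(X_et, ℤ(2)) → H^3_nr(X, ℚ/ℤ(2)) → 0`, so that `G^4(X, 2) = H^3_nr(X, ℚ/ℤ(2))`. These
groups have products with cycles on `A`, the push-forward from `A × Y` to `Y`, the operation of the
correspondences from `A` to `A` and of the Frobenius endomorphism of `Y` (`IntTheory`, `IsIntGraded`,
`IsIntAction`); the Frobenius endomorphism of `A × Y` acts as `Q ^ j` in weight `j ≥ 0`. The groups
`G^(2 j)(Y, j)` are zero for `j ≤ 1`, and `H^3_nr(X, ℚ/ℤ(2))` is finite if it is annihilated by an
integer `n ≠ 0` (`IsUnramifiedTheory`). The last property is proved as follows: `H^3(X, ℚ/ℤ(2))` is
finite (Colliot-Thélène, Sansuc, Soulé), and the kernel `K` of the map from the divisible group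
`D = CH^2(X) ⊗ ℚ/ℤ` to `H^4(X, ℚ/ℤ(2))` is `H^3_nr(X, ℚ/ℤ(2))` modulo the image of `H^3(X, ℚ/ℤ(2))`; if
`n K = 0` then `D = n D` is a quotient of `D / K`, so that the `ℓ`-primary parts of `D` are of cofinite
type and `K` is finite.


The proof. Let `x i` be the slope vectors of the `π i`, and let `ρ` be a number that comes from
`β ∈ Ω`. If a product of `ρ` and of roots of the `f i`, no two of them complex conjugate, is a power of
`q` up to a root of unity, then, computing valuations, there are odd functions `n i`, not all zero, and
constants with `∑ n i φ * x i (σ φ) = c₁ v (σ β) + c₂` for all automorphisms `σ` of `ℂ` (the sum over all `i`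
and all embeddings `φ`; the automorphism in the definition of `From` is absorbed by `n`). Take the odd
part, and average over the automorphisms which fix a given embedding `φ₀` of `K i`: by the pair flips
the average of an odd function is zero except at `φ₀` and its conjugate, so that
`n i (σ⁻¹ φ₀) * x i φ₀` is determined by `c₁` and `β` (`EV.key`). For `β = 1` all these numbers are
zero, and there are no relations, as `x i` is not zero. In general it follows that, for each `i` with `n i` not zero, `x i` is
determined up to a factor by `β`: this is the exceptional line of `β` (`EV.exists_lines`). (The odd
functions on the embeddings of the `K i` are absolutely irreducible representations, not isomorphic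
for different `i`.) Hence there are no such relations outside of the lines (`EV.exactPair_of`).

The geometric part is the one of helper8 (`H8EM.unramified_times`). The method is the one of helper68 for Weil-étale cohomology (MP_cb388a_ag): there are products
`D t` of `c t` divisor classes on `A` with a dual system `E t` for the intersection pairing; let `π` be
the projector given by them, and `N` a number such that the `N D t` and `N E t` are integral. For a
suitable polynomial `P` with integral coefficients the integral correspondence
`Θ = (N ^ 2 - N ^ 2 π) P (F)` is homologically trivial, so that a multiple of a power of `Θ` is zero; and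
`a (F) P (F)` is multiplication by an integer `N' ≠ 0` on `H^3_nr(A × Y, ℚ/ℤ(2))`. Since `Θ` vanishes on
the image of `π`, this shows that `B m = b ∑ N D t × (N E t)_* m` for all `m` in
`H^3_nr(A × Y, ℚ/ℤ(2))`, with integers `B ≠ 0` and `b`. The elements `(N E t)_* m` are in
`G^(4 - 2 c t)(Y, 2 - c t)`, which is zero for `c t > 0` and `H^3_nr(Y, ℚ/ℤ(2))` for `c t = 0`. So
`H^3_nr(A × Y, ℚ/ℤ(2))` has a finite exponent if `H^3_nr(Y, ℚ/ℤ(2))` is finite.
-/

set_option autoImplicit false

namespace Pool.Agent.Results.MP_859dd5_ag.ExceptionalSlopeLines

open NumberField Pool.Agent.V1168.EV Pool.Agent.V1168.BB Pool.Agent.H8EM

/-- **The group `H^3_nr(A × Y, ℚ/ℤ(2))` is finite if and only if `H^3_nr(Y, ℚ/ℤ(2))` is finite, for all `Y`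
with Frobenius eigenvalues from the finite set `Ω` and all abelian varieties `A` given by Weil numbers
in the CM fields `K i` (with pair flips), with slope vectors outside of at most `|Ω|` lines.** -/
theorem result {p : ℕ} [Fact p.Prime] (ν : PadicAlgCl p ≃+* ℂ) {I : Type} [Finite I]
    (K : I → Type) [∀ i, Field (K i)] [∀ i, NumberField (K i)] [∀ i, IsCMField (K i)]
    (hK : PairFlips K) (Ω : Finset ℂ) :
    ∃ E : Finset (Σ i, ((K i →+* ℂ) → ℝ)), E.card ≤ Ω.card ∧
      ForAllOutside ν K (fun q f => UnramifiedTimes (From p Ω) q f) E := by
  obtain ⟨E, hE, h⟩ := exists_lines_forall ν K hK Ω
  exact ⟨E, hE, h _ fun q f hq hR => unramified_times hq hR⟩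

end Pool.Agent.Results.MP_859dd5_ag.ExceptionalSlopeLines
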